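import Pool.Agent.K3h53.UG.Stm3
import Pool.Agent.K3h74.EX.TopUpp

/-! UG project (helper53), third part, brick DOM3: asymptotics of polynomials in `z` and one
exponential in a cone. -/

set_option autoImplicit false
set_option linter.style.haveILetI false

namespace Pool.Agent.K3h85.UG

open MvPolynomial Filter Topology Metric Set
open Pool.Agent.K3h22.EX Pool.Agent.K3h53.UG

theorem small_aux (K b a : ℝ) (N : ℕ) (ha : 0 < a) :
    ∀ᶠ R : ℝ in atTop, K * R ^ N * (Real.exp (-(R / 2)) * Real.exp (-b)) ≤ a := by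
  have h1 : Tendsto (fun R : ℝ => R / 2) atTop atTop := tendsto_id.atTop_div_const (by norm_num)
  have h2 := (Real.tendsto_pow_mul_exp_neg_atTop_nhds_zero N).comp h1
  have h3 : Tendsto (fun R : ℝ => K * R ^ N * (Real.exp (-(R / 2)) * Real.exp (-b))) atTop
      (𝓝 0) := by
    have h4 := h2.const_mul (K * 2 ^ N * Real.exp (-b))
    rw [mul_zero] at h4
    refine h4.congr fun R => ?_
    simp only [Function.comp]
    rw [div_pow]
    field_simp
  exact (h3.eventually (gt_mem_nhds ha)).mono fun R hR => le_of_lt hR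

theorem t_DOM3 : S_DOM3 := by
  classical
  intro s β _ _ p c k hp F hF
  have hne : F.support.Nonempty := support_nonempty.mpr hF
  obtain ⟨ms, hms, hmax⟩ := F.support.exists_max_image (fun m => m default) hne
  set h : ℕ := ms default with hh
  set g : MvPolynomial (Fin s) ℂ := coeff ms F with hg
  refine ⟨h, g.totalDegree, fun ζ hζ hζF => ?_⟩
  set n : ℕ := g.totalDegree with hn
  set ρ : ℝ := ‖ζ‖ + 1 with hρ
  obtain ⟨C1, hC1, hT⟩ := Pool.Agent.K3h74.EX.t_TOP s g ρ
  choose Cc hCc0 hCc using fun m : β →₀ ℕ => Pool.Agent.K3h74.EX.growth (coeff m F) ρ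
  set A : ℝ := ‖eval ζ (top g)‖ with hA
  have hA0 : 0 < A := norm_pos_iff.mpr (hζF ms hms)
  -- the neighbourhood
  obtain ⟨ε1, hε1, hε1'⟩ : ∃ ε1 : ℝ, 0 < ε1 ∧ ∀ v ∈ ball ζ ε1, A / 2 < ‖eval v (top g)‖ := by
    have h1 : ∀ᶠ v in 𝓝 ζ, A / 2 < ‖eval v (top g)‖ :=
      ((MvPolynomial.continuous_eval (top g)).norm.continuousAt (x := ζ)).eventually
        (lt_mem_nhds (by linarith))
    obtain ⟨ε1, h2, h3⟩ := Metric.eventually_nhds_iff_ball.mp h1
    exact ⟨ε1, h2, h3⟩
  set ε : ℝ := min ε1 (1 / 2) with hε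
  have hε0 : 0 < ε := lt_min hε1 (by norm_num)
  have hε2 : ε ≤ 1 / 2 := min_le_right _ _
  set rc : ℝ := (c default).re with hrc
  set K : ℝ := ∑ m ∈ F.support.erase ms, Cc m with hK
  set N : ℕ := ∑ m ∈ F.support, (coeff m F).totalDegree with hN
  have hev : ∀ᶠ R : ℝ in atTop, 1 ≤ R ∧ C1 / R ≤ A / 4 ∧ 0 ≤ R / 2 + rc ∧
      K * R ^ N * (Real.exp (-(R / 2)) * Real.exp (-rc)) ≤ A / 8 := by
    refine (eventually_ge_atTop 1).and (Eventually.and ?_ (Eventually.and ?_ ?_))
    · filter_upwards [eventually_ge_atTop (4 * C1 / A + 1)] with R hR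
      have h1 : 0 ≤ 4 * C1 / A := by positivity
      have h2 : 4 * C1 / A ≤ R := by linarith
      have hR0 : 0 < R := by linarith
      rw [div_le_iff₀ hA0] at h2
      rw [div_le_iff₀ hR0]
      linarith
    · filter_upwards [eventually_ge_atTop (-(2 * rc))] with R hR
      linarith
    · exact small_aux K rc (A / 8) N (by linarith)
  obtain ⟨R1, hR1⟩ := eventually_atTop.mp hev
  refine ⟨ε, (h : ℝ) * |rc| + |Real.log (A / 8)| + |Real.log (Cc ms + A / 8)|, max R1 1, hε0,
    by positivity, le_max_right _ _, fun R hR z hz => ?_⟩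
  obtain ⟨hRone, hRC, hRc, hRK⟩ := hR1 R (le_trans (le_max_left _ _) hR)
  have hR0 : 0 < R := by linarith
  have hRc0 : (R : ℂ) ≠ 0 := by exact_mod_cast hR0.ne'
  -- rescaling
  set v : Fin s → ℂ := fun i => (R : ℂ)⁻¹ * z i with hv
  have hzv : z = sc R v := by
    funext i
    rw [sc, hv, mul_inv_cancel_left₀ hRc0]
  have hvζ : v ∈ ball ζ ε := by
    rw [mem_ball, dist_pi_lt_iff hε0]
    intro i
    have h1 : dist (z i) (sc R ζ i) < ε * R :=
      lt_of_le_of_lt (dist_le_pi_dist z (sc R ζ) i) (mem_ball.mp hz)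
    have h2 : v i - ζ i = (R : ℂ)⁻¹ * (z i - sc R ζ i) := by
      rw [hv, sc, mul_sub, inv_mul_cancel_left₀ hRc0]
    rw [dist_eq_norm] at h1 ⊢
    rw [h2, norm_mul, norm_inv, Complex.norm_real, Real.norm_of_nonneg hR0.le,
      inv_mul_lt_iff₀ hR0, mul_comm R]
    exact h1
  have hvρ : ‖v‖ ≤ ρ := by
    have h1 : ‖v - ζ‖ < ε := by
      rw [← dist_eq_norm]
      exact mem_ball.mp hvζ
    have h2 : ‖v‖ ≤ ‖v - ζ‖ + ‖ζ‖ := by
      have := norm_add_le (v - ζ) ζ
      rwa [sub_add_cancel] at this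
    rw [hρ]
    linarith
  have hxk : R / 2 ≤ (z k).re := by
    have h1 : ‖z k - sc R ζ k‖ < ε * R := by
      rw [← dist_eq_norm]
      exact lt_of_le_of_lt (dist_le_pi_dist z (sc R ζ) k) (mem_ball.mp hz)
    have h2 : |(z k - sc R ζ k).re| ≤ ‖z k - sc R ζ k‖ := Complex.abs_re_le_norm _
    have h3 : (sc R ζ k).re = R := by
      rw [sc, Complex.re_ofReal_mul, hζ, mul_one]
    rw [Complex.sub_re, h3] at h2
    have h4 := (abs_le.mp h2).1
    nlinarith
  set E : ℂ := Complex.exp (z k + c default) with hE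
  have hEn : ‖E‖ = Real.exp ((z k).re + rc) := by
    rw [hE, Complex.norm_exp, Complex.add_re]
  have hE1 : 1 ≤ ‖E‖ := by
    rw [hEn]
    exact Real.one_le_exp (by linarith)
  have hE0 : 0 < ‖E‖ := by linarith
  -- the value
  have hval : val p c z F = eval z g * E ^ h +
      ∑ m ∈ F.support.erase ms, eval z (coeff m F) * E ^ (m default) := by
    rw [Finset.add_sum_erase F.support (fun m => eval z (coeff m F) * E ^ (m default)) hms]
    unfold val
    rw [coe_eval₂Hom, eval₂_eq']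
    refine Finset.sum_congr rfl fun m _ => ?_
    rw [Fintype.prod_unique, hp default, eval_X]
  have hmain1 : R ^ n * (A / 4) ≤ ‖eval z g‖ := by
    have h1 := hT R hRone v hvρ
    rw [← hzv] at h1
    have h2 : A / 2 < ‖eval v (top g)‖ := hε1' v (ball_subset_ball (min_le_left _ _) hvζ)
    have h3 : ‖(R : ℂ) ^ n * eval v (top g)‖ = R ^ n * ‖eval v (top g)‖ := by
      rw [norm_mul, norm_pow, Complex.norm_real, Real.norm_of_nonneg hR0.le]
    have h4 : ‖(R : ℂ) ^ n * eval v (top g)‖ ≤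
        ‖eval z g‖ + ‖eval z g - (R : ℂ) ^ n * eval v (top g)‖ := by
      have := norm_sub_le (eval z g) (eval z g - (R : ℂ) ^ n * eval v (top g))
      rwa [sub_sub_cancel] at this
    have h5 : C1 * R ^ n / R ≤ R ^ n * (A / 4) := by
      rw [mul_comm C1, mul_div_assoc]
      exact mul_le_mul_of_nonneg_left hRC (by positivity)
    have h6 : R ^ n * (A / 2) ≤ R ^ n * ‖eval v (top g)‖ :=
      mul_le_mul_of_nonneg_left h2.le (by positivity)
    rw [h3] at h4
    have h7 : R ^ n * (A / 2) = R ^ n * (A / 4) + R ^ n * (A / 4) := by ring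
    linarith
  have hmain2 : ‖eval z g‖ ≤ Cc ms * R ^ n := by
    have h1 := hCc ms R hRone v hvρ
    rwa [← hzv] at h1
  have hrest : ‖∑ m ∈ F.support.erase ms, eval z (coeff m F) * E ^ (m default)‖ ≤
      A / 8 * ‖E‖ ^ h := by
    have h1 : ∀ m ∈ F.support.erase ms, ‖eval z (coeff m F) * E ^ (m default)‖ ≤
        Cc m * (R ^ N * (Real.exp (-(R / 2)) * Real.exp (-rc))) * ‖E‖ ^ h := by
      intro m hm
      rw [Finset.mem_erase] at hm
      have h2 : m default < h := by
        refine lt_of_le_of_ne (hmax m hm.2) fun h3 => hm.1 ?_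
        refine Finsupp.ext fun b => ?_
        rw [Unique.eq_default b]
        exact h3
      have h3 : ‖eval z (coeff m F)‖ ≤ Cc m * R ^ N := by
        have h4 := hCc m R hRone v hvρ
        rw [← hzv] at h4
        refine h4.trans (mul_le_mul_of_nonneg_left ?_ (hCc0 m))
        exact pow_le_pow_right₀ hRone
          (Finset.single_le_sum (f := fun m => (coeff m F).totalDegree)
            (fun _ _ => Nat.zero_le _) hm.2)
      have h5 : ‖E‖ ^ (m default) ≤ (Real.exp (-(R / 2)) * Real.exp (-rc)) * ‖E‖ ^ h := by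
        have h6 : ‖E‖ ^ (m default) ≤ ‖E‖ ^ (h - 1) := pow_le_pow_right₀ hE1 (by omega)
        have h7 : ‖E‖ ^ h = ‖E‖ ^ (h - 1) * ‖E‖ := by
          rw [← pow_succ]
          congr 1
          omega
        have h8 : 1 ≤ Real.exp (-(R / 2)) * Real.exp (-rc) * ‖E‖ := by
          rw [hEn, ← Real.exp_add, ← Real.exp_add]
          exact Real.one_le_exp (by linarith)
        have h9 : 0 ≤ ‖E‖ ^ (h - 1) := by positivity
        rw [h7]
        nlinarith
      rw [norm_mul, norm_pow]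
      calc ‖eval z (coeff m F)‖ * ‖E‖ ^ (m default) ≤
          Cc m * R ^ N * ((Real.exp (-(R / 2)) * Real.exp (-rc)) * ‖E‖ ^ h) := by
            refine mul_le_mul h3 h5 (by positivity) ?_
            have := hCc0 m
            positivity
        _ = _ := by ring
    refine (norm_sum_le _ _).trans ((Finset.sum_le_sum h1).trans ?_)
    rw [← Finset.sum_mul, ← Finset.sum_mul, ← hK]
    refine mul_le_mul_of_nonneg_right ?_ (by positivity)
    rw [← mul_assoc]
    exact hRK
  have hRn : 1 ≤ R ^ n := one_le_pow₀ hRone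
  have hEh : 0 < ‖E‖ ^ h := by positivity
  have hlow : A / 8 * (R ^ n * ‖E‖ ^ h) ≤ ‖val p c z F‖ := by
    have h1 : ‖eval z g * E ^ h‖ ≤ ‖val p c z F‖ +
        ‖∑ m ∈ F.support.erase ms, eval z (coeff m F) * E ^ (m default)‖ := by
      have := norm_sub_le (val p c z F)
        (∑ m ∈ F.support.erase ms, eval z (coeff m F) * E ^ (m default))
      rwa [hval, add_sub_cancel_right, ← hval] at this
    rw [norm_mul, norm_pow] at h1
    have h2 : R ^ n * (A / 4) * ‖E‖ ^ h ≤ ‖eval z g‖ * ‖E‖ ^ h :=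
      mul_le_mul_of_nonneg_right hmain1 hEh.le
    have h3 : A / 8 * ‖E‖ ^ h ≤ A / 8 * (R ^ n * ‖E‖ ^ h) := by
      have : ‖E‖ ^ h ≤ R ^ n * ‖E‖ ^ h := le_mul_of_one_le_left hEh.le hRn
      nlinarith
    have h4 : R ^ n * (A / 4) * ‖E‖ ^ h = A / 8 * (R ^ n * ‖E‖ ^ h) +
        A / 8 * (R ^ n * ‖E‖ ^ h) := by ring
    linarith
  have hupp : ‖val p c z F‖ ≤ (Cc ms + A / 8) * (R ^ n * ‖E‖ ^ h) := by
    rw [hval]
    refine (norm_add_le _ _).trans ?_
    rw [norm_mul, norm_pow]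
    have h2 : ‖eval z g‖ * ‖E‖ ^ h ≤ Cc ms * R ^ n * ‖E‖ ^ h :=
      mul_le_mul_of_nonneg_right hmain2 hEh.le
    have h3 : A / 8 * ‖E‖ ^ h ≤ A / 8 * (R ^ n * ‖E‖ ^ h) := by
      have : ‖E‖ ^ h ≤ R ^ n * ‖E‖ ^ h := le_mul_of_one_le_left hEh.le hRn
      nlinarith
    have h4 : (Cc ms + A / 8) * (R ^ n * ‖E‖ ^ h) = Cc ms * R ^ n * ‖E‖ ^ h +
        A / 8 * (R ^ n * ‖E‖ ^ h) := by ring
    linarith
  have hpos : 0 < ‖val p c z F‖ := lt_of_lt_of_le (by positivity) hlow
  refine ⟨norm_pos_iff.mp hpos, ?_⟩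
  have hlog : Real.log (R ^ n * ‖E‖ ^ h) = (n : ℝ) * Real.log R + (h : ℝ) * ((z k).re + rc) := by
    rw [Real.log_mul (by positivity) hEh.ne', Real.log_pow, Real.log_pow, hEn, Real.log_exp]
  have hcc : 0 < Cc ms + A / 8 := by
    have := hCc0 ms
    linarith
  have hl1 : Real.log (A / 8) + Real.log (R ^ n * ‖E‖ ^ h) ≤ Real.log ‖val p c z F‖ := by
    rw [← Real.log_mul (by positivity) (by positivity)]
    exact Real.log_le_log (by positivity) hlow
  have hl2 : Real.log ‖val p c z F‖ ≤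
      Real.log (Cc ms + A / 8) + Real.log (R ^ n * ‖E‖ ^ h) := by
    rw [← Real.log_mul hcc.ne' (by positivity)]
    exact Real.log_le_log hpos hupp
  rw [hlog, mul_add] at hl1 hl2
  have h1 : |(h : ℝ) * rc| = (h : ℝ) * |rc| := by
    rw [abs_mul, abs_of_nonneg (Nat.cast_nonneg h)]
  have h2 := neg_abs_le ((h : ℝ) * rc)
  have h3 := le_abs_self ((h : ℝ) * rc)
  have h4 := neg_abs_le (Real.log (A / 8))
  have h5 := le_abs_self (Real.log (Cc ms + A / 8))
  have h6 := abs_nonneg (Real.log (A / 8))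
  have h7 := abs_nonneg (Real.log (Cc ms + A / 8))
  rw [h1] at h2 h3
  rw [abs_le]
  constructor
  · linarith
  · linarith

end Pool.Agent.K3h85.UG
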